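import Mathlib
import Pool.Agent.Q47.Khin.Arc

/-! Intersections of the sets `{x : a x ∈ arc}` and `{x : b x ∈ arc}`. -/

open MeasureTheory Set Filter Topology

namespace Q68.RK

open Q47Khin

/-- the number of integers in an open interval -/
lemma card_Ioo_le {u l : ℝ} (hl : 0 ≤ l) (F : Finset ℤ) (h : ∀ n ∈ F, u < n ∧ (n : ℝ) < u + l) :
    (F.card : ℝ) ≤ l + 1 := by
  have hsub : F ⊆ Finset.Icc (⌊u⌋ + 1) (⌈u + l⌉ - 1) := by
    intro n hn
    obtain ⟨h1, h2⟩ := h n hn
    rw [Finset.mem_Icc]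
    constructor
    · have : ⌊u⌋ < n := Int.floor_lt.2 h1
      omega
    · have : n < ⌈u + l⌉ := Int.lt_ceil.2 h2
      omega
  have h1 := Finset.card_le_card hsub
  rw [Int.card_Icc] at h1
  have h2 : ((⌈u + l⌉ - 1 + 1 - (⌊u⌋ + 1)).toNat : ℝ) ≤ l + 1 := by
    have h3 : ((⌈u + l⌉ : ℤ) : ℝ) < u + l + 1 := Int.ceil_lt_add_one _
    have h4 : u < ((⌊u⌋ : ℤ) : ℝ) + 1 := Int.lt_floor_add_one _
    rcases le_or_gt 0 (⌈u + l⌉ - 1 + 1 - (⌊u⌋ + 1)) with h | h
    · have e : ((⌈u + l⌉ - 1 + 1 - (⌊u⌋ + 1)).toNat : ℝ) =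
          ((⌈u + l⌉ - 1 + 1 - (⌊u⌋ + 1) : ℤ) : ℝ) := by
        have := Int.toNat_of_nonneg h
        exact_mod_cast this
      rw [e]
      push_cast
      linarith
    · rw [Int.toNat_of_nonpos h.le]
      simpa using by linarith
  have h3 : (F.card : ℝ) ≤ ((⌈u + l⌉ - 1 + 1 - (⌊u⌋ + 1)).toNat : ℝ) := by exact_mod_cast h1
  linarith

open scoped Classical in
/-- rotations by multiples of `1/b` hit an arc rarely -/
lemma card_hit {a b : ℕ} (hb : 0 < b) (hab : Nat.Coprime a b) {δ : ℝ} (hδ : 0 ≤ δ)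
    (y : UnitAddCircle) :
    (((Finset.range b).filter fun i : ℕ =>
      y + a • (((i : ℝ) / b : ℝ) : UnitAddCircle) ∈ arc 0 δ).card : ℝ) ≤ δ * b + 1 := by
  classical
  induction y using QuotientAddGroup.induction_on with
  | H r =>
    have hb' : (0 : ℝ) < b := by exact_mod_cast hb
    set F := (Finset.range b).filter fun i : ℕ =>
      ((r : ℝ) : UnitAddCircle) + a • (((i : ℝ) / b : ℝ) : UnitAddCircle) ∈ arc 0 δ with hF
    have hmem : ∀ i ∈ F, ∃ m : ℤ, -(r * b) < ((a * i - m * b : ℤ) : ℝ) ∧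
        ((a * i - m * b : ℤ) : ℝ) < -(r * b) + δ * b := by
      intro i hi
      rw [hF, Finset.mem_filter] at hi
      have h1 : ((r : ℝ) : UnitAddCircle) + a • (((i : ℝ) / b : ℝ) : UnitAddCircle) =
          ((r + a * (i / b) : ℝ) : UnitAddCircle) := by
        rw [AddCircle.coe_add, ← nsmul_eq_mul, AddCircle.coe_nsmul]
      rw [h1, coe_mem_arc] at hi
      obtain ⟨-, m, h2, h3⟩ := hi
      refine ⟨m, ?_, ?_⟩
      · push_cast
        have : (0 : ℝ) < (r + a * (i / b) - m) * b := mul_pos h2 hb'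
        have e : (r + a * (i / b) - m : ℝ) * b = r * b + (a * i - m * b) := by field_simp; ring
        rw [e] at this
        linarith
      · push_cast
        have : (r + a * (i / b) - m : ℝ) * b < (0 + δ) * b := mul_lt_mul_of_pos_right h3 hb'
        have e : (r + a * (i / b) - m : ℝ) * b = r * b + (a * i - m * b) := by field_simp; ring
        rw [e] at this
        linarith
    choose! m hm using hmem
    have hinj : Set.InjOn (fun i : ℕ => (a * i - m i * b : ℤ)) F := by
      intro i hi j hj hij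
      simp only at hij
      have hi' := Finset.mem_range.1 (Finset.mem_filter.1 hi).1
      have hj' := Finset.mem_range.1 (Finset.mem_filter.1 hj).1
      have h1 : ((b : ℤ)) ∣ a * ((i : ℤ) - j) := ⟨m i - m j, by linarith⟩
      have h2 : IsCoprime (b : ℤ) (a : ℤ) := (Nat.isCoprime_iff_coprime.2 hab).symm
      have h3 := h2.dvd_of_dvd_mul_left h1
      have h4 : ((i : ℤ) - j).natAbs < b := by omega
      have h5 : (i : ℤ) - j = 0 := by
        by_contra hne
        have h6 := Int.natAbs_le_of_dvd_ne_zero h3 hne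
        simp only [Int.natAbs_natCast] at h6
        omega
      omega
    rw [← Finset.card_image_of_injOn hinj]
    apply card_Ioo_le (u := -(r * b)) (by positivity)
    intro n hn
    obtain ⟨i, hi, rfl⟩ := Finset.mem_image.1 hn
    exact hm i hi

lemma measurableSet_S (δ : ℝ) (n : ℕ) : MeasurableSet (S 0 δ n) := (isOpen_S 0 δ n).measurableSet

/-- the coprime case -/
lemma volume_inter_coprime {a b : ℕ} (hb : 0 < b) (hab : Nat.Coprime a b) {δ : ℝ}
    (hδ : 0 ≤ δ) (hδ1 : δ ≤ 1) :
    volume.real (S 0 δ a ∩ S 0 δ b) ≤ δ ^ 2 + δ / b := by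
  classical
  have hb' : (0 : ℝ) < b := by exact_mod_cast hb
  let τ : ℕ → UnitAddCircle := fun i => (((i : ℝ) / b : ℝ) : UnitAddCircle)
  have hτ : ∀ i, b • τ i = 0 := by
    intro i
    change b • (((i : ℝ) / b : ℝ) : UnitAddCircle) = 0
    rw [← AddCircle.coe_nsmul, nsmul_eq_mul, AddCircle.coe_eq_zero_iff]
    exact ⟨i, by field_simp; simp⟩
  let A : ℕ → Set UnitAddCircle := fun i => {x | a • x + a • τ i ∈ arc 0 δ}
  have hAm : ∀ i, MeasurableSet (A i) := by
    intro i
    have : Continuous fun x : UnitAddCircle => a • x + a • τ i :=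
      (continuous_nsmul a).add continuous_const
    exact ((isOpen_arc 0 δ).preimage this).measurableSet
  have h1 : ∀ i, volume.real (S 0 δ a ∩ S 0 δ b) = volume.real (A i ∩ S 0 δ b) := by
    intro i
    have h2 : (fun x => x + τ i) ⁻¹' (S 0 δ a ∩ S 0 δ b) = A i ∩ S 0 δ b := by
      ext x
      simp only [mem_preimage, mem_inter_iff, S, mem_ofPred_eq, A, nsmul_add, hτ, add_zero]
    have h3 := (measurePreserving_add_right (volume : Measure UnitAddCircle) (τ i)).measure_preimage
      ((measurableSet_S δ a).inter (measurableSet_S δ b)).nullMeasurableSet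
    rw [h2] at h3
    unfold Measure.real
    rw [h3]
  have h4 : (b : ℝ) * volume.real (S 0 δ a ∩ S 0 δ b) =
      ∫ x in S 0 δ b, (∑ i ∈ Finset.range b, (A i).indicator (fun _ => (1 : ℝ)) x) := by
    rw [integral_finsetSum]
    · have h5 : ∀ i ∈ Finset.range b, ∫ x in S 0 δ b, (A i).indicator (fun _ => (1 : ℝ)) x =
          volume.real (S 0 δ a ∩ S 0 δ b) := by
        intro i _
        rw [h1 i, integral_indicator (hAm i)]
        simp only [integral_const, smul_eq_mul, mul_one, measureReal_restrict_apply MeasurableSet.univ,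
          univ_inter]
        rw [measureReal_restrict_apply (hAm i)]
      rw [Finset.sum_congr rfl h5, Finset.sum_const, Finset.card_range, nsmul_eq_mul]
    · intro i _
      exact (integrable_const (1 : ℝ)).indicator (hAm i)
  have h6 : ∫ x in S 0 δ b, (∑ i ∈ Finset.range b, (A i).indicator (fun _ => (1 : ℝ)) x) ≤
      ∫ x in S 0 δ b, (δ * b + 1) := by
    apply integral_mono
    · exact integrable_finsetSum _ fun i _ => (integrable_const (1 : ℝ)).indicator (hAm i)
    · exact integrable_const _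
    · intro x
      simp only
      have h7 := card_hit hb hab hδ (a • x)
      have h8 : ∑ i ∈ Finset.range b, (A i).indicator (fun _ => (1 : ℝ)) x =
          (((Finset.range b).filter fun i : ℕ =>
            a • x + a • (((i : ℝ) / b : ℝ) : UnitAddCircle) ∈ arc 0 δ).card : ℝ) := by
        rw [Finset.card_filter]
        push_cast
        apply Finset.sum_congr rfl
        intro i _
        rw [Set.indicator_apply]
        rfl
      rw [h8]
      exact h7
  have h9 : ∫ x in S 0 δ b, (δ * b + 1) = δ * (δ * b + 1) := by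
    rw [integral_const, smul_eq_mul, measureReal_restrict_apply MeasurableSet.univ, univ_inter,
      volume_S le_rfl hδ (by linarith) hb]
  rw [← h4, h9] at h6
  have h10 : volume.real (S 0 δ a ∩ S 0 δ b) ≤ δ * (δ * b + 1) / b := by
    rw [le_div_iff₀ hb']
    linarith
  refine h10.trans (le_of_eq ?_)
  field_simp

/-- the general case -/
lemma volume_inter_le {g a b : ℕ} (hg : 0 < g) (ha : 0 < a) (hb : 0 < b) (hab : Nat.Coprime a b)
    {δ : ℝ} (hδ : 0 ≤ δ) (hδ1 : δ ≤ 1) :
    volume.real (S 0 δ (g * a) ∩ S 0 δ (g * b)) ≤ δ ^ 2 + δ / (max a b : ℕ) := by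
  have h1 : S 0 δ (g * a) ∩ S 0 δ (g * b) = (fun x => g • x) ⁻¹' (S 0 δ a ∩ S 0 δ b) := by
    ext x
    simp only [S, mem_inter_iff, mem_ofPred_eq, mem_preimage, smul_smul, mul_comm g]
  have h2 := (measurePreserving_nsmul' hg).measure_preimage
      ((measurableSet_S δ a).inter (measurableSet_S δ b)).nullMeasurableSet
  have h3 : volume.real (S 0 δ (g * a) ∩ S 0 δ (g * b)) = volume.real (S 0 δ a ∩ S 0 δ b) := by
    unfold Measure.real
    rw [h1, h2]
  rw [h3]
  rcases le_total a b with h | h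
  · rw [max_eq_right h]
    exact volume_inter_coprime hb hab hδ hδ1
  · rw [max_eq_left h, Set.inter_comm]
    exact volume_inter_coprime ha hab.symm hδ hδ1

end Q68.RK
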