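import Mathlib
import Pool.Agent.Q68.RK.Pair

/-! Sets of small measure swept by products of powers of 2 and 3. -/

open MeasureTheory Set Filter Topology

namespace Q68.RK

open Q47Khin

/-- Lower bound for the measure of a union by second moments. -/
lemma union_ge {X ι : Type*} [MeasurableSpace X] (μ : Measure X) [IsFiniteMeasure μ]
    (I : Finset ι) (A : ι → Set X) (hA : ∀ i, MeasurableSet (A i)) (t : ℝ) :
    2 * t * ∑ i ∈ I, μ.real (A i) - ∑ i ∈ I, ∑ j ∈ I, μ.real (A i ∩ A j) ≤
      t ^ 2 * μ.real (⋃ i ∈ I, A i) := by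
  classical
  set f : ι → X → ℝ := fun i => (A i).indicator (fun _ => (1 : ℝ)) with hf
  have hfi : ∀ i, Integrable (f i) μ := fun i => (integrable_const (1 : ℝ)).indicator (hA i)
  have hff : ∀ i j x, f i x * f j x = (A i ∩ A j).indicator (fun _ => (1 : ℝ)) x := by
    intro i j x
    rw [hf]
    simp only [Set.indicator_apply, mem_inter_iff]
    split_ifs <;> simp_all
  have hffi : ∀ i j, Integrable (fun x => f i x * f j x) μ := by
    intro i j
    simp only [hff]
    exact (integrable_const (1 : ℝ)).indicator ((hA i).inter (hA j))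
  set G := ⋃ i ∈ I, A i with hG
  have hGm : MeasurableSet G := Finset.measurableSet_biUnion _ fun i _ => hA i
  have h1 : ∀ x, 2 * t * ∑ i ∈ I, f i x - ∑ i ∈ I, ∑ j ∈ I, f i x * f j x ≤
      t ^ 2 * G.indicator (fun _ => (1 : ℝ)) x := by
    intro x
    have h2 : ∑ i ∈ I, ∑ j ∈ I, f i x * f j x = (∑ i ∈ I, f i x) ^ 2 := by
      rw [sq, Finset.sum_mul_sum]
    rw [h2]
    by_cases hx : x ∈ G
    · rw [Set.indicator_of_mem hx]
      nlinarith [sq_nonneg (t - ∑ i ∈ I, f i x)]
    · rw [Set.indicator_of_notMem hx]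
      have h3 : ∑ i ∈ I, f i x = 0 := by
        apply Finset.sum_eq_zero
        intro i hi
        rw [hf]
        apply Set.indicator_of_notMem
        intro hxi
        apply hx
        rw [hG]
        exact mem_biUnion hi hxi
      rw [h3]
      simp
  have h4 : ∫ x, (2 * t * ∑ i ∈ I, f i x - ∑ i ∈ I, ∑ j ∈ I, f i x * f j x) ∂μ ≤
      ∫ x, t ^ 2 * G.indicator (fun _ => (1 : ℝ)) x ∂μ := by
    apply integral_mono
    · apply Integrable.sub
      · exact (integrable_finsetSum _ fun i _ => hfi i).const_mul _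
      · exact integrable_finsetSum _ fun i _ => integrable_finsetSum _ fun j _ => hffi i j
    · exact ((integrable_const (1 : ℝ)).indicator hGm).const_mul _
    · exact h1
  rw [integral_sub ((integrable_finsetSum _ fun i _ => hfi i).const_mul _)
    (integrable_finsetSum _ fun i _ => integrable_finsetSum _ fun j _ => hffi i j),
    integral_const_mul, integral_const_mul, integral_finsetSum _ fun i _ => hfi i,
    integral_finsetSum _ fun i _ => integrable_finsetSum _ fun j _ => hffi i j] at h4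
  have h5 : ∀ B : Set X, MeasurableSet B → ∫ x, B.indicator (fun _ => (1 : ℝ)) x ∂μ = μ.real B := by
    intro B hB
    rw [integral_indicator hB]
    simp
  rw [h5 G hGm] at h4
  have h6 : ∑ i ∈ I, ∫ x, f i x ∂μ = ∑ i ∈ I, μ.real (A i) :=
    Finset.sum_congr rfl fun i _ => h5 _ (hA i)
  have h7 : ∑ i ∈ I, ∫ x, ∑ j ∈ I, f i x * f j x ∂μ = ∑ i ∈ I, ∑ j ∈ I, μ.real (A i ∩ A j) := by
    apply Finset.sum_congr rfl
    intro i _
    rw [integral_finsetSum _ fun j _ => hffi i j]
    apply Finset.sum_congr rfl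
    intro j _
    simp only [hff]
    exact h5 _ ((hA i).inter (hA j))
  rw [h6, h7] at h4
  exact h4

/-- the multiplier `2^a 3^b` -/
def mu2 (q : ℕ × ℕ) : ℕ := 2 ^ q.1 * 3 ^ q.2

lemma mu2_pos (q : ℕ × ℕ) : 0 < mu2 q := by unfold mu2; positivity

lemma num_bound {i j D : ℕ} (h1 : 2 ^ i ≤ D) (h2 : 2 ^ j ≤ D) :
    1 / (D : ℝ) ≤ (3 / 4) ^ i * (3 / 4) ^ j := by
  have key : ∀ i j : ℕ, i ≤ j → 2 ^ j ≤ D → 1 / (D : ℝ) ≤ (3 / 4) ^ i * (3 / 4) ^ j := by
    intro i j hij hD
    have hD' : (2 : ℝ) ^ j ≤ D := by exact_mod_cast hD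
    calc 1 / (D : ℝ) ≤ 1 / 2 ^ j := one_div_le_one_div_of_le (by positivity) hD'
      _ = (1 / 2) ^ j := by rw [one_div_pow]
      _ ≤ (9 / 16) ^ j := pow_le_pow_left₀ (by norm_num) (by norm_num) j
      _ = (3 / 4) ^ j * (3 / 4) ^ j := by rw [← mul_pow]; norm_num
      _ ≤ (3 / 4) ^ i * (3 / 4) ^ j := by
          apply mul_le_mul_of_nonneg_right _ (by positivity)
          exact pow_le_pow_of_le_one (by norm_num) (by norm_num) hij
  rcases le_total i j with h | h
  · exact key i j h h2
  · rw [mul_comm]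
    exact key j i h h1

lemma two_le_three (j : ℕ) : 2 ^ j ≤ 3 ^ j := Nat.pow_le_pow_left (by norm_num) j

lemma pair_q (q q' : ℕ × ℕ) {δ : ℝ} (hδ : 0 ≤ δ) (hδ1 : δ ≤ 1) :
    volume.real (S 0 δ (mu2 q) ∩ S 0 δ (mu2 q')) ≤
      δ ^ 2 + δ * ((3 / 4) ^ (Nat.dist q.1 q'.1) * (3 / 4) ^ (Nat.dist q.2 q'.2)) := by
  obtain ⟨a, b⟩ := q
  obtain ⟨c, d⟩ := q'
  have fin : ∀ g u v i j : ℕ, 0 < g → 0 < u → 0 < v → Nat.Coprime u v → 2 ^ i ≤ max u v →
      2 ^ j ≤ max u v → g * u = mu2 (a, b) → g * v = mu2 (c, d) → i = Nat.dist a c →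
      j = Nat.dist b d →
      volume.real (S 0 δ (mu2 (a, b)) ∩ S 0 δ (mu2 (c, d))) ≤
      δ ^ 2 + δ * ((3 / 4) ^ (Nat.dist a c) * (3 / 4) ^ (Nat.dist b d)) := by
    intro g u v i j hg hu hv huv h1 h2 e1 e2 e3 e4
    rw [← e1, ← e2, ← e3, ← e4]
    refine (volume_inter_le hg hu hv huv hδ hδ1).trans ?_
    have h3 := num_bound h1 h2
    have h4 : δ / ((max u v : ℕ) : ℝ) = δ * (1 / ((max u v : ℕ) : ℝ)) := by ring
    rw [h4]
    gcongr
  have h23 : ∀ i j : ℕ, Nat.Coprime (2 ^ i) (3 ^ j) := fun i j =>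
    Nat.Coprime.pow i j (by norm_num)
  simp only
  rcases le_total a c with h1 | h1 <;> rcases le_total b d with h2 | h2
  · obtain ⟨i, rfl⟩ := Nat.exists_eq_add_of_le h1
    obtain ⟨j, rfl⟩ := Nat.exists_eq_add_of_le h2
    apply fin (2 ^ a * 3 ^ b) 1 (2 ^ i * 3 ^ j) i j (by positivity) (by positivity) (by positivity)
      (Nat.coprime_one_left _)
    · exact le_max_of_le_right (Nat.le_mul_of_pos_right _ (by positivity))
    · refine le_max_of_le_right ((two_le_three j).trans (Nat.le_mul_of_pos_left _ (by positivity)))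
    · simp [mu2]
    · simp only [mu2]; ring
    · rw [Nat.dist_eq_sub_of_le (by omega)]; omega
    · rw [Nat.dist_eq_sub_of_le (by omega)]; omega
  · obtain ⟨i, rfl⟩ := Nat.exists_eq_add_of_le h1
    obtain ⟨j, rfl⟩ := Nat.exists_eq_add_of_le h2
    apply fin (2 ^ a * 3 ^ d) (3 ^ j) (2 ^ i) i j (by positivity) (by positivity) (by positivity)
      (h23 i j).symm
    · exact le_max_right _ _
    · exact le_max_of_le_left (two_le_three j)
    · simp only [mu2]; ring
    · simp only [mu2]; ring
    · rw [Nat.dist_eq_sub_of_le (by omega)]; omega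
    · rw [Nat.dist_comm, Nat.dist_eq_sub_of_le (by omega)]; omega
  · obtain ⟨i, rfl⟩ := Nat.exists_eq_add_of_le h1
    obtain ⟨j, rfl⟩ := Nat.exists_eq_add_of_le h2
    apply fin (2 ^ c * 3 ^ b) (2 ^ i) (3 ^ j) i j (by positivity) (by positivity) (by positivity)
      (h23 i j)
    · exact le_max_left _ _
    · exact le_max_of_le_right (two_le_three j)
    · simp only [mu2]; ring
    · simp only [mu2]; ring
    · rw [Nat.dist_comm, Nat.dist_eq_sub_of_le (by omega)]; omega
    · rw [Nat.dist_eq_sub_of_le (by omega)]; omega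
  · obtain ⟨i, rfl⟩ := Nat.exists_eq_add_of_le h1
    obtain ⟨j, rfl⟩ := Nat.exists_eq_add_of_le h2
    apply fin (2 ^ c * 3 ^ d) (2 ^ i * 3 ^ j) 1 i j (by positivity) (by positivity) (by positivity)
      (Nat.coprime_one_right _)
    · exact le_max_of_le_left (Nat.le_mul_of_pos_right _ (by positivity))
    · refine le_max_of_le_left ((two_le_three j).trans (Nat.le_mul_of_pos_left _ (by positivity)))
    · simp only [mu2]; ring
    · simp [mu2]
    · rw [Nat.dist_comm, Nat.dist_eq_sub_of_le (by omega)]; omega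
    · rw [Nat.dist_comm, Nat.dist_eq_sub_of_le (by omega)]; omega

lemma sum_dist_le (c N : ℕ) : ∑ x ∈ Finset.range N, (3 / 4 : ℝ) ^ (Nat.dist c x) ≤ 7 := by
  have h1 : ∀ N ≤ c, ∑ x ∈ Finset.range N, (3 / 4 : ℝ) ^ (Nat.dist c x) ≤ 3 * (3 / 4) ^ (c - N) := by
    intro N
    induction N with
    | zero => intro _; simp only [Finset.range_zero, Finset.sum_empty]; positivity
    | succ N ih =>
      intro hN
      rw [Finset.sum_range_succ, Nat.dist_comm, Nat.dist_eq_sub_of_le (by omega)]
      have h2 := ih (by omega)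
      obtain ⟨d, hd⟩ : ∃ d, c - N = d + 1 := ⟨c - N - 1, by omega⟩
      have hd' : c - (N + 1) = d := by omega
      rw [hd] at h2
      rw [hd, hd']
      rw [pow_succ] at h2 ⊢
      linarith
  have h2 : ∀ d, ∑ x ∈ Finset.range (c + d), (3 / 4 : ℝ) ^ (Nat.dist c x) ≤ 7 - 4 * (3 / 4) ^ d := by
    intro d
    induction d with
    | zero =>
      have := h1 c le_rfl
      simp only [Nat.sub_self, pow_zero, mul_one, add_zero] at this ⊢
      linarith
    | succ d ih =>
      rw [← add_assoc, Finset.sum_range_succ, Nat.dist_eq_sub_of_le (by omega)]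
      have e : c + d - c = d := by omega
      rw [e, pow_succ]
      linarith
  rcases le_total N c with h | h
  · refine (h1 N h).trans ?_
    have : (3 / 4 : ℝ) ^ (c - N) ≤ 1 := pow_le_one₀ (by norm_num) (by norm_num)
    linarith
  · obtain ⟨d, rfl⟩ := Nat.exists_eq_add_of_le h
    refine (h2 d).trans ?_
    have : (0 : ℝ) ≤ (3 / 4) ^ d := by positivity
    linarith

/-- The main deterministic construction. -/
theorem exists_EG (K M : ℕ) (hK : 0 < K) (r : ℤ → ℤ → ℤ) :
    ∃ E : Set UnitAddCircle, IsOpen E ∧ volume.real E ≤ 64 / K ∧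
      ∃ G : Set UnitAddCircle, MeasurableSet G ∧ 1 / 8 ≤ volume.real G ∧
        ∀ x ∈ G, ∃ j < K, ∃ q1 q2 : ℤ, ∀ a ≤ M, ∀ b ≤ M,
          (r (q1 - a) (q2 - b) = r q1 q2 - j ∨ r (q1 - a) (q2 - b) = r q1 q2 - j - 1) →
          (2 ^ a * 3 ^ b) • x ∈ E := by
  classical
  set L : ℕ := M + 3 with hL
  have hL' : (3 : ℝ) ≤ L := by rw [hL]; push_cast; linarith [Nat.cast_nonneg (α := ℝ) M]
  set δ : ℝ := 8 / (L : ℝ) ^ 2 with hδ
  have hδ0 : 0 < δ := by positivity
  have hδ1 : δ ≤ 1 := by
    rw [hδ, div_le_one (by positivity)]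
    nlinarith
  have hK' : (0 : ℝ) < K := by exact_mod_cast hK
  -- the classes
  let R : ℕ × ℕ → ℤ := fun q => r q.1 q.2
  let ψ : ℕ → ℕ × ℕ → Prop := fun s q => (s : ℤ) = R q % K ∨ (s : ℤ) = (R q - 1) % K
  set Q : Finset (ℕ × ℕ) := Finset.range (M + L) ×ˢ Finset.range (M + L) with hQ
  have hpig : ∃ s ∈ Finset.range K, (K : ℝ) * ((Q.filter (ψ s)).card : ℝ) ≤ 2 * (M + L : ℕ) ^ 2 := by
    by_contra hcon
    push Not at hcon
    have h1 : ∑ s ∈ Finset.range K, (Q.filter (ψ s)).card ≤ 2 * (M + L) ^ 2 := by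
      simp only [Finset.card_filter]
      rw [Finset.sum_comm]
      calc ∑ q ∈ Q, ∑ s ∈ Finset.range K, (if ψ s q then 1 else 0) ≤ ∑ q ∈ Q, 2 := by
            apply Finset.sum_le_sum
            intro q _
            rw [← Finset.card_filter]
            calc _ ≤ ({(R q % K).toNat, ((R q - 1) % K).toNat} : Finset ℕ).card := by
                  apply Finset.card_le_card
                  intro s hs
                  rw [Finset.mem_filter] at hs
                  rw [Finset.mem_insert, Finset.mem_singleton]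
                  rcases hs.2 with h | h
                  · left; omega
                  · right; omega
              _ ≤ 2 := Finset.card_le_two
        _ = 2 * (M + L) ^ 2 := by
            rw [Finset.sum_const, hQ, Finset.card_product, Finset.card_range, smul_eq_mul]
            ring
    have h2 : (∑ s ∈ Finset.range K, (Q.filter (ψ s)).card : ℝ) ≤ 2 * (M + L : ℕ) ^ 2 := by
      exact_mod_cast h1
    have h3 : ∑ _s ∈ Finset.range K, (2 * ((M + L : ℕ) : ℝ) ^ 2) <
        ∑ s ∈ Finset.range K, (K : ℝ) * ((Q.filter (ψ s)).card : ℝ) := by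
      apply Finset.sum_lt_sum_of_nonempty
      · exact Finset.nonempty_range_iff.2 hK.ne'
      · intro s hs
        exact hcon s hs
    rw [Finset.sum_const, Finset.card_range, nsmul_eq_mul, ← Finset.mul_sum] at h3
    have h4 := lt_of_mul_lt_mul_left h3 hK'.le
    linarith
  obtain ⟨s, hs, hsK⟩ := hpig
  refine ⟨⋃ q ∈ Q.filter (ψ s), S 0 δ (mu2 q), isOpen_biUnion fun q _ => isOpen_S _ _ _, ?_, ?_⟩
  · refine (measureReal_biUnion_finset_le _ _).trans ?_
    have : ∀ q ∈ Q.filter (ψ s), volume.real (S 0 δ (mu2 q)) = δ :=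
      fun q _ => volume_S le_rfl hδ0.le (by linarith) (mu2_pos q)
    rw [Finset.sum_congr rfl this, Finset.sum_const, nsmul_eq_mul, le_div_iff₀ hK']
    have h1 : ((M + L : ℕ) : ℝ) ≤ 2 * L := by rw [hL]; push_cast; linarith
    have h2 : ((M + L : ℕ) : ℝ) ^ 2 ≤ 4 * (L : ℝ) ^ 2 := by
      have h0 : (0 : ℝ) ≤ ((M + L : ℕ) : ℝ) := by positivity
      nlinarith
    calc ((Q.filter (ψ s)).card : ℝ) * δ * K = (K * ((Q.filter (ψ s)).card : ℝ)) * δ := by ring
      _ ≤ (2 * ((M + L : ℕ) : ℝ) ^ 2) * δ := by gcongr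
      _ ≤ (2 * (4 * (L : ℝ) ^ 2)) * δ := by gcongr
      _ = 64 := by rw [hδ]; field_simp; norm_num
  · set Q' : Finset (ℕ × ℕ) := Finset.Ico M (M + L) ×ˢ Finset.Ico M (M + L) with hQ'
    refine ⟨⋃ q ∈ Q', S 0 δ (mu2 q), ?_, ?_, ?_⟩
    · exact Finset.measurableSet_biUnion _ fun q _ => measurableSet_S _ _
    · have h1 := union_ge (volume : Measure UnitAddCircle) Q' (fun q => S 0 δ (mu2 q))
        (fun q => measurableSet_S _ _) 57
      have h2 : ∑ q ∈ Q', volume.real (S 0 δ (mu2 q)) = 8 := by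
        have : ∀ q ∈ Q', volume.real (S 0 δ (mu2 q)) = δ :=
          fun q _ => volume_S le_rfl hδ0.le (by linarith) (mu2_pos q)
        rw [Finset.sum_congr rfl this, Finset.sum_const, nsmul_eq_mul, hQ', Finset.card_product,
          Nat.card_Ico, hδ]
        have e : M + L - M = L := by omega
        rw [e]
        push_cast
        field_simp
      have h3 : ∑ q ∈ Q', ∑ q' ∈ Q', volume.real (S 0 δ (mu2 q) ∩ S 0 δ (mu2 q')) ≤ 8 * 57 := by
        have h4 : ∀ q ∈ Q', ∑ q' ∈ Q', volume.real (S 0 δ (mu2 q) ∩ S 0 δ (mu2 q')) ≤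
            (L : ℝ) ^ 2 * δ ^ 2 + δ * 49 := by
          intro q _
          calc _ ≤ ∑ q' ∈ Q', (δ ^ 2 + δ * ((3 / 4) ^ (Nat.dist q.1 q'.1) *
                (3 / 4) ^ (Nat.dist q.2 q'.2))) :=
                Finset.sum_le_sum fun q' _ => pair_q q q' hδ0.le hδ1
            _ = (L : ℝ) ^ 2 * δ ^ 2 + δ * ∑ q' ∈ Q', ((3 / 4) ^ (Nat.dist q.1 q'.1) *
                (3 / 4) ^ (Nat.dist q.2 q'.2)) := by
                rw [Finset.sum_add_distrib, Finset.sum_const, nsmul_eq_mul, hQ',
                  Finset.card_product, Nat.card_Ico, ← Finset.mul_sum]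
                have e : M + L - M = L := by omega
                rw [e]
                push_cast
                ring
            _ ≤ _ := by
                gcongr
                rw [hQ', Finset.sum_product]
                simp only
                have h5 : ∀ c : ℕ, ∑ x ∈ Finset.Ico M (M + L), (3 / 4 : ℝ) ^ (Nat.dist c x) ≤ 7 := by
                  intro c
                  refine le_trans ?_ (sum_dist_le c (M + L))
                  apply Finset.sum_le_sum_of_subset_of_nonneg
                  · intro x hx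
                    rw [Finset.mem_Ico] at hx
                    rw [Finset.mem_range]
                    exact hx.2
                  · intro x _ _
                    positivity
                have h6 : ∀ x ∈ Finset.Ico M (M + L), ∑ y ∈ Finset.Ico M (M + L),
                    ((3 / 4 : ℝ) ^ (Nat.dist q.1 x) * (3 / 4) ^ (Nat.dist q.2 y)) ≤
                    (3 / 4 : ℝ) ^ (Nat.dist q.1 x) * 7 := by
                  intro x _
                  rw [← Finset.mul_sum]
                  gcongr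
                  exact h5 _
                refine (Finset.sum_le_sum h6).trans ?_
                rw [← Finset.sum_mul]
                have := h5 q.1
                linarith
        refine (Finset.sum_le_sum h4).trans ?_
        rw [Finset.sum_const, nsmul_eq_mul, hQ', Finset.card_product, Nat.card_Ico]
        have e : M + L - M = L := by omega
        rw [e, hδ]
        push_cast
        apply le_of_eq
        field_simp
        norm_num
      rw [h2] at h1
      linarith
    · intro x hx
      simp only [mem_iUnion, exists_prop] at hx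
      obtain ⟨q, hq, hx⟩ := hx
      rw [hQ', Finset.mem_product, Finset.mem_Ico, Finset.mem_Ico] at hq
      have hKz : (0 : ℤ) < K := by exact_mod_cast hK
      have hs' : (s : ℤ) < K := by exact_mod_cast Finset.mem_range.1 hs
      have hj0 := Int.emod_nonneg (R q - 1 - s) hKz.ne'
      have hjK := Int.emod_lt_of_pos (R q - 1 - s) hKz
      refine ⟨((R q - 1 - s) % K).toNat, by omega, q.1, q.2, ?_⟩
      intro a ha b hb hab
      have hjj : (((R q - 1 - s) % K).toNat : ℤ) = (R q - 1 - s) % K := Int.toNat_of_nonneg hj0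
      rw [hjj] at hab
      set j : ℤ := (R q - 1 - s) % K with hj
      have hmod : (R q - j - 1) % K = s := by
        have h1 : (R q - j - 1) % K = (R q - 1 - (R q - 1 - s)) % K := by
          rw [hj]
          have e : R q - (R q - 1 - s) % K - 1 = (R q - 1) - (R q - 1 - s) % K := by ring
          rw [e, Int.sub_emod, Int.emod_emod_of_dvd _ (dvd_refl _), ← Int.sub_emod]
        rw [h1]
        have e : R q - 1 - (R q - 1 - (s : ℤ)) = s := by ring
        rw [e]
        exact Int.emod_eq_of_lt (by positivity) hs'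
      have hqa : q.1 - a + a = q.1 := by omega
      have hqb : q.2 - b + b = q.2 := by omega
      have hRq : R (q.1 - a, q.2 - b) = r ((q.1 : ℤ) - a) ((q.2 : ℤ) - b) := by
        change r ((q.1 - a : ℕ) : ℤ) ((q.2 - b : ℕ) : ℤ) = _
        rw [Nat.cast_sub (by omega), Nat.cast_sub (by omega)]
      have hψ : ψ s (q.1 - a, q.2 - b) := by
        change (s : ℤ) = R (q.1 - a, q.2 - b) % K ∨ (s : ℤ) = (R (q.1 - a, q.2 - b) - 1) % K
        rw [hRq]
        have hRq0 : R q = r q.1 q.2 := rfl
        rcases hab with h | h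
        · right
          rw [h, ← hRq0, hmod]
        · left
          rw [h, ← hRq0, hmod]
      simp only [mem_iUnion, exists_prop]
      refine ⟨(q.1 - a, q.2 - b), ?_, ?_⟩
      · rw [Finset.mem_filter, hQ, Finset.mem_product, Finset.mem_range, Finset.mem_range]
        refine ⟨⟨?_, ?_⟩, hψ⟩
        · simp only; omega
        · simp only; omega
      · change mu2 (q.1 - a, q.2 - b) • (2 ^ a * 3 ^ b) • x ∈ arc 0 δ
        have e : mu2 (q.1 - a, q.2 - b) • (2 ^ a * 3 ^ b) • x = mu2 q • x := by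
          rw [smul_smul]
          congr 1
          simp only [mu2]
          calc 2 ^ (q.1 - a) * 3 ^ (q.2 - b) * (2 ^ a * 3 ^ b) =
              2 ^ (q.1 - a + a) * 3 ^ (q.2 - b + b) := by rw [pow_add, pow_add]; ring
            _ = _ := by rw [hqa, hqb]
        rw [e]
        exact hx

end Q68.RK
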