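import Mathlib
import Pool.Agent.Q68.RK.Box
import Pool.Agent.Q47.Khin.Main

/-! From shapes of the walk to sweeping. -/

open MeasureTheory Set Filter Topology

namespace Q68.RK

open Q47Khin

/-- the letters 2, 3 coded by booleans -/
def letter (b : Bool) : ℕ := if b then 2 else 3

/-- centred partial sums -/
noncomputable def Sn (p : ℝ) (x : ℕ → Bool) (n : ℕ) : ℝ :=
  ∑ i ∈ Finset.range n, ((if x i then (1 : ℝ) else 0) - p)

/-- The walk spends most of the time in each of `K` consecutive strips at suitable moments. -/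
def PathProp (S : ℕ → ℝ) (K m : ℕ) : Prop :=
  ∃ l : ℝ, 0 < l ∧ ∃ T : ℕ, ∀ j < K, ∃ N, m ≤ N ∧ 0 < N ∧ N ≤ T ∧ ∃ A ⊆ Finset.range N,
    N ≤ 2 * A.card ∧ ∀ t ∈ A, j * l ≤ S (t + 1) ∧ S (t + 1) < (j + 1) * l

lemma prod_eq (x : ℕ → Bool) (n : ℕ) : ∃ a ≤ n, ∃ b ≤ n,
    ∏ i ∈ Finset.range n, letter (x i) = 2 ^ a * 3 ^ b ∧
      ∀ p : ℝ, Sn p x n = (1 - p) * a - p * b := by
  induction n with
  | zero => exact ⟨0, le_rfl, 0, le_rfl, by simp, fun p => by simp [Sn]⟩
  | succ n ih =>
    obtain ⟨a, ha, b, hb, e, hs⟩ := ih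
    cases hx : x n with
    | true =>
      refine ⟨a + 1, by omega, b, by omega, ?_, fun p => ?_⟩
      · rw [Finset.prod_range_succ, e, hx]
        simp only [letter, if_true]
        ring
      · have := hs p
        unfold Sn at this ⊢
        rw [Finset.sum_range_succ, this, hx]
        simp only [if_true]
        push_cast
        ring
    | false =>
      refine ⟨a, by omega, b + 1, by omega, ?_, fun p => ?_⟩
      · rw [Finset.prod_range_succ, e, hx]
        simp only [letter, Bool.false_eq_true, if_false]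
        ring
      · have := hs p
        unfold Sn at this ⊢
        rw [Finset.sum_range_succ, this, hx]
        simp only [Bool.false_eq_true, if_false]
        push_cast
        ring

theorem sweep_of_path {p : ℝ} {x : ℕ → Bool} {m : ℕ} (h : PathProp (Sn p x) (2 ^ (m + 9)) m) :
    Sweep m (prodSeq fun n => letter (x n)) := by
  obtain ⟨l, hl, T, hT⟩ := h
  obtain ⟨E, hE, hEv, G, hG, hGv, hx⟩ := exists_EG (2 ^ (m + 9)) (T + 1) (by positivity)
    (fun q1 q2 => ⌊((1 - p) * q1 - p * q2) / l⌋)
  refine ⟨E, hE, ?_, T, G, hG, hGv, ?_⟩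
  · refine hEv.trans (le_of_eq ?_)
    push_cast
    rw [pow_add, pow_add]
    field_simp
    norm_num
  · intro y hy
    obtain ⟨j, hj, q1, q2, hq⟩ := hx y hy
    obtain ⟨N, hN1, hN2, hN3, A, hA1, hA2, hA3⟩ := hT j hj
    refine ⟨N, hN1, hN2, hN3, A, hA1, hA2, fun t ht => ?_⟩
    obtain ⟨a, ha, b, hb, e, hs⟩ := prod_eq x (t + 1)
    have ht' : t < N := Finset.mem_range.1 (hA1 ht)
    have e' : prodSeq (fun n => letter (x n)) t = 2 ^ a * 3 ^ b := e
    rw [e']
    apply hq a (by omega) b (by omega)
    obtain ⟨h1, h2⟩ := hA3 t ht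
    rw [hs p] at h1 h2
    have h1' : (j : ℝ) ≤ ((1 - p) * a - p * b) / l := by rwa [le_div_iff₀ hl]
    have h2' : ((1 - p) * a - p * b) / l < j + 1 := by rwa [div_lt_iff₀ hl]
    set Y : ℝ := ((1 - p) * (q1 : ℝ) - p * q2) / l with hY
    have hYa : ((1 - p) * (((q1 - (a : ℤ)) : ℤ) : ℝ) - p * ((q2 - (b : ℤ) : ℤ) : ℝ)) / l =
        Y - ((1 - p) * a - p * b) / l := by
      rw [hY]
      push_cast
      ring
    rw [hYa]
    have h3 := Int.floor_le Y
    have h4 := Int.lt_floor_add_one Y
    have h5 : ⌊Y⌋ - j - 1 ≤ ⌊Y - ((1 - p) * a - p * b) / l⌋ := by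
      rw [Int.le_floor]
      push_cast
      linarith
    have h6 : ⌊Y - ((1 - p) * a - p * b) / l⌋ < ⌊Y⌋ - j + 1 := by
      rw [Int.floor_lt]
      push_cast
      linarith
    omega

/-- block constants -/
def Cs : ℕ → ℕ
  | 0 => 4
  | K + 1 => 4 * (Cs K + 2)

lemma sched (v : ℕ) (hv : 0 < v) (K : ℕ) : ∃ g : ℕ → ℕ, g 0 = 0 ∧
    (∀ i, g (i + 1) = g i ∨ g (i + 1) = g i + 1) ∧
    (∀ j < K + 1, ∃ b, 0 < b ∧ 4 * b ≤ Cs K * v ∧ ∀ i, b ≤ i → i < 4 * b → g i = (2 * j + 1) * v) ∧
    ∀ i, Cs K * v ≤ i → g i = (2 * K + 1) * v := by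
  induction K with
  | zero =>
    refine ⟨fun i => min i v, by simp, fun i => ?_, fun j hj => ⟨v, hv, by simp [Cs], fun i h1 h2 => ?_⟩,
      fun i hi => ?_⟩
    · simp only
      omega
    · obtain rfl : j = 0 := by omega
      simp only
      omega
    · simp only [Cs] at hi
      simp only
      omega
  | succ K ih =>
    obtain ⟨g, hg0, hg1, hg2, hg3⟩ := ih
    have e1 : Cs (K + 1) * v = 4 * (Cs K * v + 2 * v) := by simp only [Cs]; ring
    have e2 : (2 * (K + 1) + 1) * v = (2 * K + 1) * v + 2 * v := by ring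
    rw [e1, e2]
    generalize Cs K * v = c at *
    refine ⟨fun i => g i + min (i - c) (2 * v), ?_, fun i => ?_, fun j hj => ?_, fun i hi => ?_⟩
    · simp [hg0]
    · simp only
      rcases lt_or_ge i c with h | h
      · have h1 : i - c = 0 := by omega
        have h2 : i + 1 - c = 0 := by omega
        rw [h1, h2]
        simpa using hg1 i
      · have h1 := hg3 i h
        have h2 := hg3 (i + 1) (by omega)
        omega
    · rcases lt_or_ge j (K + 1) with h | h
      · obtain ⟨b, hb0, hb, hb'⟩ := hg2 j h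
        refine ⟨b, hb0, by omega, fun i h1 h2 => ?_⟩
        have h3 := hb' i h1 h2
        have h4 : i - c = 0 := by omega
        simp only
        rw [h3, h4]
        simp
      · obtain rfl : j = K + 1 := by omega
        rw [e2]
        refine ⟨c + 2 * v, by omega, le_rfl, fun i h1 h2 => ?_⟩
        have h3 := hg3 i (by omega)
        simp only
        omega
    · have h3 := hg3 i (by omega)
      simp only
      omega

/-- the good block event for a path -/
def Good (S : ℕ → ℝ) (a s : ℕ) (u θ κ : ℝ) : Prop :=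
  |S (a + s) - S a - u * √s| < θ * √s ∧
  4 * ((Finset.range s).filter (fun n => κ * √s < |S (a + n + 1) - S a|)).card ≤ s

theorem path_of_good {S : ℕ → ℝ} {K m τ s v C : ℕ} {θ κ : ℝ} {g : ℕ → ℕ} (hs : 0 < s)
    (hθ : 0 ≤ θ) (hτ : 8 * τ ≤ s) (hm : m ≤ s) (hSτ : |S τ| ≤ √s)
    (hv : 1 + (C * v : ℕ) * θ + κ < v)
    (hg0 : g 0 = 0)
    (hg : ∀ j < K, ∃ b, 0 < b ∧ 4 * b ≤ C * v ∧ ∀ i, b ≤ i → i < 4 * b → g i = (2 * j + 1) * v)
    (hgood : ∀ i < C * v, Good S (τ + i * s) s ((g (i + 1) : ℝ) - g i) θ κ) : PathProp S K m := by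
  classical
  have hs' : (0 : ℝ) < s := by exact_mod_cast hs
  have hsq : 0 < √(s : ℝ) := Real.sqrt_pos.2 hs'
  rcases Nat.eq_zero_or_pos v with hv0 | hv0
  · subst hv0
    refine ⟨1, one_pos, 0, fun j hj => ?_⟩
    obtain ⟨b, hb0, hb, -⟩ := hg j hj
    omega
  have hv' : (0 : ℝ) < v := by exact_mod_cast hv0
  have hpos : ∀ i ≤ C * v, |S (τ + i * s) - g i * √s| ≤ (1 + i * θ) * √s := by
    intro i
    induction i with
    | zero => intro _; simpa [hg0] using hSτ
    | succ i ih =>
      intro hi
      have h1 := ih (by omega)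
      have h2 := (hgood i (by omega)).1
      have e : τ + (i + 1) * s = τ + i * s + s := by ring
      rw [e]
      have h3 : S (τ + i * s + s) - g (i + 1) * √s = (S (τ + i * s) - g i * √s) +
          (S (τ + i * s + s) - S (τ + i * s) - ((g (i + 1) : ℝ) - g i) * √s) := by ring
      rw [h3]
      refine (abs_add_le _ _).trans ?_
      push_cast
      nlinarith
  refine ⟨2 * v * √s, by positivity, τ + C * v * s, fun j hj => ?_⟩
  obtain ⟨b, hb0, hb, hb'⟩ := hg j hj
  have hbs : 1 * s ≤ b * s := Nat.mul_le_mul_right _ hb0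
  refine ⟨τ + 4 * b * s, by nlinarith, by nlinarith, by nlinarith, ?_⟩
  set N := τ + 4 * b * s with hN
  set P : ℕ → Prop := fun t => j * (2 * v * √s) ≤ S (t + 1) ∧ S (t + 1) < (j + 1) * (2 * v * √s)
    with hP
  refine ⟨(Finset.range N).filter P, Finset.filter_subset _ _, ?_, fun t ht => (Finset.mem_filter.1 ht).2⟩
  have hbad : ((Finset.range N).filter fun t => ¬ P t) ⊆ Finset.range (τ + b * s) ∪
      (Finset.Ico b (4 * b)).biUnion fun i =>
        ((Finset.range s).filter (fun n => κ * √s < |S (τ + i * s + n + 1) - S (τ + i * s)|)).image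
          (fun n => τ + i * s + n) := by
    intro t ht
    rw [Finset.mem_filter, Finset.mem_range] at ht
    obtain ⟨ht1, ht2⟩ := ht
    rw [Finset.mem_union, Finset.mem_range, Finset.mem_biUnion]
    rcases lt_or_ge t (τ + b * s) with h | h
    · exact Or.inl h
    · right
      have e1 : s * ((t - τ) / s) + (t - τ) % s = t - τ := Nat.div_add_mod _ _
      have e2 : (t - τ) % s < s := Nat.mod_lt _ hs
      set i := (t - τ) / s with hi
      set n := (t - τ) % s with hn
      have e3 : t = τ + i * s + n := by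
        have : s * i = i * s := mul_comm _ _
        omega
      have hib : b ≤ i := by
        rw [hi, Nat.le_div_iff_mul_le hs]
        omega
      have hib' : i < 4 * b := by
        rw [hi, Nat.div_lt_iff_lt_mul hs]
        omega
      refine ⟨i, Finset.mem_Ico.2 ⟨hib, hib'⟩, ?_⟩
      rw [Finset.mem_image]
      refine ⟨n, ?_, e3.symm⟩
      rw [Finset.mem_filter, Finset.mem_range]
      refine ⟨e2, ?_⟩
      by_contra hcon
      push Not at hcon
      apply ht2
      have h1 := hpos i (by omega)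
      have h2 := hb' i hib hib'
      rw [h2] at h1
      rw [e3]
      have h4 : ((i : ℕ) : ℝ) ≤ ((C * v : ℕ) : ℝ) := by
        have : i ≤ C * v := by omega
        exact_mod_cast this
      have h5 : (1 + (i : ℝ) * θ) * √s + κ * √s < v * √s := by
        rw [← add_mul]
        apply mul_lt_mul_of_pos_right _ hsq
        have : (i : ℝ) * θ ≤ ((C * v : ℕ) : ℝ) * θ := mul_le_mul_of_nonneg_right h4 hθ
        linarith
      rw [abs_le] at h1 hcon
      push_cast at h1
      constructor
      · linarith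
      · linarith
  have hc1 := Finset.card_le_card hbad
  have hc2 : (((Finset.Ico b (4 * b)).biUnion fun i =>
        ((Finset.range s).filter (fun n => κ * √s < |S (τ + i * s + n + 1) - S (τ + i * s)|)).image
          (fun n => τ + i * s + n)).card) * 4 ≤ 3 * b * s := by
    calc _ ≤ (∑ i ∈ Finset.Ico b (4 * b), (((Finset.range s).filter (fun n => κ * √s <
          |S (τ + i * s + n + 1) - S (τ + i * s)|)).image (fun n => τ + i * s + n)).card) * 4 :=
          Nat.mul_le_mul_right _ Finset.card_biUnion_le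
      _ ≤ ∑ i ∈ Finset.Ico b (4 * b), s := by
          rw [Finset.sum_mul]
          apply Finset.sum_le_sum
          intro i hi
          rw [Finset.mem_Ico] at hi
          have h1 := (hgood i (by omega)).2
          have h2 := Finset.card_image_le (s := (Finset.range s).filter (fun n => κ * √s <
            |S (τ + i * s + n + 1) - S (τ + i * s)|)) (f := fun n => τ + i * s + n)
          omega
      _ = 3 * b * s := by
          rw [Finset.sum_const, Nat.card_Ico, smul_eq_mul]
          congr 1
          omega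
  have hc3 := Finset.card_union_le (Finset.range (τ + b * s))
    ((Finset.Ico b (4 * b)).biUnion fun i =>
        ((Finset.range s).filter (fun n => κ * √s < |S (τ + i * s + n + 1) - S (τ + i * s)|)).image
          (fun n => τ + i * s + n))
  rw [Finset.card_range] at hc3
  have hc4 := Finset.card_filter_add_card_filter_not (s := Finset.range N) P
  rw [Finset.card_range] at hc4
  have e5 : 3 * b * s = 3 * (b * s) := by ring
  have e6 : 4 * b * s = 4 * (b * s) := by ring
  rw [e5] at hc2
  rw [e6] at hN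
  omega

end Q68.RK
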