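import Mathlib
import Pool.Agent.Q68.Bern

/-! Repeated independent trials on shifted windows. -/

open MeasureTheory ProbabilityTheory Set Filter Topology

namespace Q68.RK

variable (μ : Measure Bool) [IsProbabilityMeasure μ]

/-- `A` depends only on the coordinates in `I`. -/
def DepOn (I : Finset ℕ) (A : Set (ℕ → Bool)) : Prop :=
  ∀ x y : ℕ → Bool, (∀ i ∈ I, x i = y i) → x ∈ A → y ∈ A

/-- the shift by `a` -/
def shf (a : ℕ) : (ℕ → Bool) → (ℕ → Bool) := fun x i => x (a + i)

lemma DepOn.cyl {I : Finset ℕ} {A : Set (ℕ → Bool)} (h : DepOn I A) :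
    ∃ S : Set (I → Bool), MeasurableSet S ∧ A = cylinder I S := by
  refine ⟨{y | ∃ x ∈ A, I.restrict x = y}, (Set.toFinite _).measurableSet, ?_⟩
  ext x
  rw [mem_cylinder]
  constructor
  · intro hx
    exact ⟨x, hx, rfl⟩
  · rintro ⟨y, hy, hyx⟩
    refine h y x (fun i hi => ?_) hy
    exact congrFun hyx ⟨i, hi⟩

lemma DepOn.measurableSet {I : Finset ℕ} {A : Set (ℕ → Bool)} (h : DepOn I A) :
    MeasurableSet A := by
  obtain ⟨S, hS, rfl⟩ := h.cyl
  exact MeasurableSet.cylinder I hS

lemma DepOn.mono {I J : Finset ℕ} {A : Set (ℕ → Bool)} (h : DepOn I A) (hIJ : I ⊆ J) :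
    DepOn J A := fun x y hxy => h x y fun i hi => hxy i (hIJ hi)

lemma DepOn.compl {I : Finset ℕ} {A : Set (ℕ → Bool)} (h : DepOn I A) : DepOn I Aᶜ := by
  intro x y hxy hx hy
  exact hx (h y x (fun i hi => (hxy i hi).symm) hy)

lemma DepOn.inter {I : Finset ℕ} {A B : Set (ℕ → Bool)} (h : DepOn I A) (h' : DepOn I B) :
    DepOn I (A ∩ B) := fun x y hxy hx => ⟨h x y hxy hx.1, h' x y hxy hx.2⟩

lemma DepOn.shf {A : Set (ℕ → Bool)} {m : ℕ} (h : DepOn (Finset.range m) A) (a : ℕ) :
    DepOn (Finset.Ico a (a + m)) (shf a ⁻¹' A) := by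
  intro x y hxy hx
  refine h _ _ (fun i hi => ?_) hx
  apply hxy
  rw [Finset.mem_range] at hi
  rw [Finset.mem_Ico]
  omega

lemma prob_shf {A : Set (ℕ → Bool)} (hA : MeasurableSet A) (a : ℕ) :
    (Measure.infinitePi (fun _ : ℕ => μ)).real (shf a ⁻¹' A) =
      (Measure.infinitePi (fun _ : ℕ => μ)).real A := by
  have h : MeasurePreserving (shf a) (Measure.infinitePi (fun _ : ℕ => μ))
      (Measure.infinitePi (fun _ : ℕ => μ)) :=
    Q68.Bern.mp_sh μ (τ := fun i => a + i) (fun i j hij => by simpa using hij)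
  rw [measureReal_def, h.measure_preimage hA.nullMeasurableSet, measureReal_def]

lemma prob_inter {A B : Set (ℕ → Bool)} {a m : ℕ} (hA : DepOn (Finset.range a) A)
    (hB : DepOn (Finset.range m) B) :
    (Measure.infinitePi (fun _ : ℕ => μ)).real (A ∩ shf a ⁻¹' B) =
      (Measure.infinitePi (fun _ : ℕ => μ)).real A *
      (Measure.infinitePi (fun _ : ℕ => μ)).real B := by
  rw [← prob_shf μ hB.measurableSet a]
  obtain ⟨S, hS, e1⟩ := hA.cyl
  obtain ⟨S', hS', e2⟩ := (hB.shf a).cyl
  rw [e2, e1, measureReal_def, Q68.Bern.indep_cyl μ _ hS hS', ENNReal.toReal_mul]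
  · rfl
  · rw [Finset.disjoint_left]
    intro i hi hi'
    rw [Finset.mem_range] at hi
    rw [Finset.mem_Ico] at hi'
    omega

/-- One of infinitely many independent trials with success probability bounded below succeeds. -/
theorem ae_exists {τ L : ℕ → ℕ} {E : ℕ → Set (ℕ → Bool)} {c : ℝ} (hc : 0 < c)
    (hE : ∀ k, DepOn (Finset.range (L k)) (E k)) (hτ : ∀ k, τ k + L k ≤ τ (k + 1))
    (hP : ∀ k, c ≤ (Measure.infinitePi (fun _ : ℕ => μ)).real (E k)) :
    ∀ᵐ x ∂(Measure.infinitePi (fun _ : ℕ => μ)), ∃ k, shf (τ k) x ∈ E k := by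
  set P : Measure (ℕ → Bool) := Measure.infinitePi (fun _ : ℕ => μ) with hPdef
  have hc1 : c ≤ 1 := (hP 0).trans measureReal_le_one
  let F : ℕ → Set (ℕ → Bool) := fun n => ⋂ k ∈ Finset.range n, (shf (τ k) ⁻¹' (E k))ᶜ
  have hF : ∀ n, DepOn (Finset.range (τ n)) (F n) ∧ P.real (F n) ≤ (1 - c) ^ n := by
    intro n
    induction n with
    | zero =>
      refine ⟨?_, ?_⟩
      · intro x y _ _
        simp [F]
      · simp [F]
    | succ n ih =>
      have e : F (n + 1) = F n ∩ shf (τ n) ⁻¹' (E n)ᶜ := by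
        ext x
        simp only [F, Finset.mem_range, mem_iInter, mem_inter_iff, Order.lt_add_one_iff,
          mem_compl_iff, mem_preimage]
        constructor
        · intro h
          exact ⟨fun k hk => h k hk.le, h n le_rfl⟩
        · rintro ⟨h1, h2⟩ k hk
          rcases hk.lt_or_eq with h | h
          · exact h1 k h
          · rw [h]; exact h2
      have h1 := hτ n
      refine ⟨?_, ?_⟩
      · rw [e]
        apply DepOn.inter
        · apply ih.1.mono
          intro i hi
          rw [Finset.mem_range] at hi ⊢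
          omega
        · apply ((hE n).compl.shf (τ n)).mono
          intro i hi
          rw [Finset.mem_Ico] at hi
          rw [Finset.mem_range]
          omega
      · rw [e, prob_inter μ ih.1 (hE n).compl, pow_succ]
        apply mul_le_mul ih.2 _ measureReal_nonneg (by
          have : 0 ≤ 1 - c := by linarith
          positivity)
        rw [probReal_compl_eq_one_sub (hE n).measurableSet]
        linarith [hP n]
  have h0 : P (⋂ n, F n) = 0 := by
    have h1 : ∀ n, P.real (⋂ n, F n) ≤ (1 - c) ^ n := fun n =>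
      (measureReal_mono (iInter_subset _ n) (measure_ne_top _ _)).trans (hF n).2
    have h2 : Tendsto (fun n : ℕ => (1 - c) ^ n) atTop (𝓝 0) :=
      tendsto_pow_atTop_nhds_zero_of_lt_one (by linarith) (by linarith)
    have h3 : P.real (⋂ n, F n) ≤ 0 := ge_of_tendsto' h2 h1
    have h4 : P.real (⋂ n, F n) = 0 := le_antisymm h3 measureReal_nonneg
    rwa [measureReal_eq_zero_iff] at h4
  rw [ae_iff]
  refine measure_mono_null ?_ h0
  intro x hx
  simp only [Set.mem_ofPred_eq, not_exists] at hx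
  simp only [F, mem_iInter, mem_compl_iff, mem_preimage]
  exact fun n k _ => hx k

end Q68.RK
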