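import Mathlib
import Pool.Agent.Q68.RK.Shift
import Pool.Agent.Q68.RK.Path

/-! Lower bounds for the probability of good blocks. -/

open MeasureTheory ProbabilityTheory Set Filter Topology

namespace Q68.RK

/-- centred letter -/
noncomputable def ctr (p : ℝ) (b : Bool) : ℝ := (if b then (1 : ℝ) else 0) - p

/-- centred letters as random variables -/
noncomputable def Xc (p : ℝ) (k : ℕ) (x : ℕ → Bool) : ℝ := ctr p (x k)

variable (μ : Measure Bool) [IsProbabilityMeasure μ]

/-- the product measure -/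
noncomputable abbrev PI : Measure (ℕ → Bool) := Measure.infinitePi (fun _ : ℕ => μ)

lemma measurable_ctr (p : ℝ) : Measurable (ctr p) := measurable_of_finite _

lemma measurable_Xc (p : ℝ) (k : ℕ) : Measurable (Xc p k) :=
  (measurable_ctr p).comp (measurable_pi_apply k)

lemma Xc_indep (p : ℝ) : iIndepFun (Xc p) (PI μ) :=
  iIndepFun_infinitePi (X := fun _ => ctr p) (fun _ => measurable_ctr p)

lemma map_Xc (p : ℝ) (k : ℕ) : (PI μ).map (Xc p k) = μ.map (ctr p) := by
  have h : (PI μ).map (fun x : ℕ → Bool => x k) = μ := Measure.infinitePi_map_eval _ k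
  conv_rhs => rw [← h]
  rw [Measure.map_map (measurable_ctr p) (measurable_pi_apply k)]
  rfl

lemma Xc_ident (p : ℝ) (k : ℕ) : IdentDistrib (Xc p k) (Xc p 0) (PI μ) (PI μ) :=
  ⟨(measurable_Xc p k).aemeasurable, (measurable_Xc p 0).aemeasurable, by
    rw [map_Xc, map_Xc]⟩

lemma Xc_bound (p : ℝ) (k : ℕ) (x : ℕ → Bool) : |Xc p k x| ≤ 1 + |p| := by
  unfold Xc ctr
  refine (abs_sub _ _).trans ?_
  gcongr
  split_ifs <;> simp

lemma Xc_memLp (p : ℝ) (k : ℕ) : MemLp (Xc p k) 2 (PI μ) :=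
  MemLp.of_bound (measurable_Xc p k).aestronglyMeasurable (1 + |p|)
    (ae_of_all _ fun x => Xc_bound p k x)

lemma real_false : μ.real {false} = 1 - μ.real {true} := by
  have h : ({false} : Set Bool) = {true}ᶜ := by ext b; cases b <;> simp
  rw [h, probReal_compl_eq_one_sub (measurableSet_singleton _)]

lemma integral_ctr_comp (f : ℝ → ℝ) (p : ℝ) (hp : p = μ.real {true}) :
    ∫ b, f (ctr p b) ∂μ = p * f (1 - p) + (1 - p) * f (-p) := by
  rw [integral_fintype (Integrable.of_finite)]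
  rw [Fintype.sum_bool, real_false μ, ← hp]
  simp [ctr]

lemma integral_Xc_comp {f : ℝ → ℝ} (hf : Measurable f) (p : ℝ) (hp : p = μ.real {true}) (k : ℕ) :
    ∫ x, f (Xc p k x) ∂(PI μ) = p * f (1 - p) + (1 - p) * f (-p) := by
  rw [← integral_ctr_comp μ f p hp]
  rw [← integral_map (measurable_Xc p k).aemeasurable hf.aestronglyMeasurable, map_Xc,
    integral_map (measurable_ctr p).aemeasurable hf.aestronglyMeasurable]

lemma integral_Xc (p : ℝ) (hp : p = μ.real {true}) (k : ℕ) : ∫ x, Xc p k x ∂(PI μ) = 0 := by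
  have := integral_Xc_comp μ measurable_id p hp k
  simp only [id] at this
  rw [this]
  ring

lemma variance_Xc (p : ℝ) (hp : p = μ.real {true}) (k : ℕ) :
    Var[Xc p k; PI μ] = p * (1 - p) := by
  rw [variance_eq_sub (Xc_memLp μ p k), integral_Xc μ p hp k]
  have := integral_Xc_comp μ (f := fun y => y ^ 2) (by fun_prop) p hp k
  simp only [Pi.pow_apply]
  rw [this]
  ring

lemma Sn_eq (p : ℝ) (n : ℕ) : (fun x => Sn p x n) = ∑ k ∈ Finset.range n, Xc p k := by
  funext x
  rw [Finset.sum_apply]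
  rfl

lemma Sn_zero (p : ℝ) (x : ℕ → Bool) : Sn p x 0 = 0 := by simp [Sn]

lemma Sn_shf (p : ℝ) (x : ℕ → Bool) (a n : ℕ) :
    Sn p (shf a x) n = Sn p x (a + n) - Sn p x a := by
  unfold Sn
  rw [Finset.sum_range_add, add_sub_cancel_left]
  rfl

lemma Sn_abs (p : ℝ) (hp0 : 0 ≤ p) (hp1 : p ≤ 1) (x : ℕ → Bool) (n : ℕ) : |Sn p x n| ≤ n := by
  unfold Sn
  refine (Finset.abs_sum_le_sum_abs _ _).trans ?_
  calc _ ≤ ∑ _i ∈ Finset.range n, (1 : ℝ) := by
        apply Finset.sum_le_sum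
        intro i _
        rw [abs_le]
        split_ifs <;> constructor <;> linarith
    _ = n := by simp

lemma variance_Sn (p : ℝ) (hp : p = μ.real {true}) (n : ℕ) :
    Var[fun x => Sn p x n; PI μ] = n * (p * (1 - p)) := by
  rw [Sn_eq, IndepFun.variance_sum (fun i _ => Xc_memLp μ p i)]
  · rw [Finset.sum_congr rfl fun i _ => variance_Xc μ p hp i]
    simp
  · intro i _ j _ hij
    exact (Xc_indep μ p).indepFun hij

lemma memLp_Sn (p : ℝ) (n : ℕ) : MemLp (fun x => Sn p x n) 2 (PI μ) := by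
  rw [Sn_eq]
  exact memLp_finsetSum' _ fun i _ => Xc_memLp μ p i

lemma integral_Sn (p : ℝ) (hp : p = μ.real {true}) (n : ℕ) : ∫ x, Sn p x n ∂(PI μ) = 0 := by
  have h : ∀ x, Sn p x n = ∑ k ∈ Finset.range n, Xc p k x := fun x => rfl
  simp only [h]
  rw [integral_finsetSum]
  · exact Finset.sum_eq_zero fun k _ => integral_Xc μ p hp k
  · intro k _
    exact (Xc_memLp μ p k).integrable (by norm_num)

lemma measurable_Sn (p : ℝ) (n : ℕ) : Measurable (fun x : ℕ → Bool => Sn p x n) := by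
  unfold Sn
  exact Finset.measurable_fun_sum _ fun i _ => measurable_Xc p i

/-- Chebyshev. -/
lemma cheb (p : ℝ) (hp : p = μ.real {true}) (hp0 : 0 ≤ p) (hp1 : p ≤ 1) (n s : ℕ) (hns : n ≤ s)
    (hs : 0 < s) {κ : ℝ} (hκ : 0 < κ) :
    (PI μ).real {x | κ * √s < |Sn p x n|} ≤ 1 / κ ^ 2 := by
  have hs' : (0 : ℝ) < s := by exact_mod_cast hs
  have hsq : 0 < √(s : ℝ) := Real.sqrt_pos.2 hs'
  have h1 := meas_ge_le_variance_div_sq (memLp_Sn μ p n) (c := κ * √s) (by positivity)
  rw [integral_Sn μ p hp n, variance_Sn μ p hp n] at h1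
  have h2 : (PI μ).real {x | κ * √s < |Sn p x n|} ≤ (PI μ).real {x | κ * √s ≤ |Sn p x n - 0|} := by
    apply measureReal_mono _ (measure_ne_top _ _)
    intro x hx
    have hx' : κ * √s < |Sn p x n| := hx
    change κ * √s ≤ |Sn p x n - 0|
    rw [sub_zero]
    exact hx'.le
  refine h2.trans ?_
  rw [measureReal_def]
  refine (ENNReal.toReal_mono ENNReal.ofReal_ne_top h1).trans ?_
  have h3 : p * (1 - p) ≤ 1 := by nlinarith
  have h4 : 0 ≤ p * (1 - p) := mul_nonneg hp0 (by linarith)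
  have h5 : (n : ℝ) ≤ s := by exact_mod_cast hns
  rw [ENNReal.toReal_ofReal (by positivity), mul_pow, Real.sq_sqrt hs'.le,
    div_le_div_iff₀ (by positivity) (by positivity)]
  have h6 : (n : ℝ) * (p * (1 - p)) ≤ s * 1 := mul_le_mul h5 h3 h4 hs'.le
  nlinarith [sq_nonneg κ, sq_pos_of_pos hκ]

/-- Markov for the number of far excursions. -/
lemma markov (p : ℝ) (hp : p = μ.real {true}) (hp0 : 0 ≤ p) (hp1 : p ≤ 1) (s : ℕ)
    (hs : 0 < s) {κ : ℝ} (hκ : 0 < κ) :
    (PI μ).real {x | ¬ 4 * ((Finset.range s).filter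
      (fun n => κ * √s < |Sn p x (n + 1)|)).card ≤ s} ≤ 4 / κ ^ 2 := by
  classical
  have hs' : (0 : ℝ) < s := by exact_mod_cast hs
  let A : ℕ → Set (ℕ → Bool) := fun n => {x | κ * √s < |Sn p x (n + 1)|}
  have hA : ∀ n, MeasurableSet (A n) := fun n =>
    measurableSet_lt measurable_const ((measurable_Sn p (n + 1)).abs)
  let f : (ℕ → Bool) → ℝ := fun x => ∑ n ∈ Finset.range s, (A n).indicator (fun _ => (1 : ℝ)) x
  have hf : ∀ x, f x = (((Finset.range s).filter (fun n => κ * √s < |Sn p x (n + 1)|)).card : ℝ) := by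
    intro x
    simp only [f, Set.indicator_apply, A]
    rw [← Finset.sum_filter]
    simp
  have hfi : Integrable f (PI μ) :=
    integrable_finsetSum _ fun n _ => (integrable_const (1 : ℝ)).indicator (hA n)
  have h1 := mul_meas_ge_le_integral_of_nonneg (μ := PI μ) (f := f)
    (ae_of_all _ fun x => by
      simp only [f, Pi.zero_apply]
      exact Finset.sum_nonneg fun n _ => Set.indicator_nonneg (fun _ _ => zero_le_one) _) hfi
    ((s : ℝ) / 4)
  have h2 : ∫ x, f x ∂(PI μ) ≤ s * (1 / κ ^ 2) := by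
    simp only [f]
    rw [integral_finsetSum _ fun n _ => (integrable_const (1 : ℝ)).indicator (hA n)]
    calc _ ≤ ∑ _n ∈ Finset.range s, 1 / κ ^ 2 := by
          apply Finset.sum_le_sum
          intro n hn
          rw [Finset.mem_range] at hn
          rw [integral_indicator (hA n)]
          simp only [integral_const, smul_eq_mul, mul_one]
          rw [measureReal_restrict_apply_univ]
          exact cheb μ p hp hp0 hp1 (n + 1) s hn hs hκ
      _ = _ := by simp
  have h3 : (PI μ).real {x | ¬ 4 * ((Finset.range s).filter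
      (fun n => κ * √s < |Sn p x (n + 1)|)).card ≤ s} ≤ (PI μ).real {x | (s : ℝ) / 4 ≤ f x} := by
    apply measureReal_mono _ (measure_ne_top _ _)
    intro x hx
    have hx' : ¬ 4 * ((Finset.range s).filter
      (fun n => κ * √s < |Sn p x (n + 1)|)).card ≤ s := hx
    change (s : ℝ) / 4 ≤ f x
    rw [hf]
    push Not at hx'
    have : (s : ℝ) < 4 * (((Finset.range s).filter
      (fun n => κ * √s < |Sn p x (n + 1)|)).card : ℝ) := by exact_mod_cast hx'
    linarith
  refine h3.trans ?_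
  have h4 := h1.trans h2
  have h5 : (s : ℝ) * ((PI μ).real {x | (s : ℝ) / 4 ≤ f x}) ≤ s * (4 / κ ^ 2) := by
    have : (s : ℝ) * (4 / κ ^ 2) = 4 * (s * (1 / κ ^ 2)) := by ring
    rw [this]
    linarith
  exact le_of_mul_le_mul_left h5 hs'

/-- The central limit theorem gives a lower bound. -/
lemma clt (p : ℝ) (hp : p = μ.real {true}) (hp0 : 0 < p) (hp1 : p < 1) (u : ℝ) {θ : ℝ}
    (hθ : 0 < θ) : ∃ c > 0, ∀ᶠ s : ℕ in atTop,
      c ≤ (PI μ).real {x | |Sn p x s - u * √s| < θ * √s} := by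
  have hv : Var[Xc p 0; PI μ] = p * (1 - p) := variance_Xc μ p hp 0
  have hv0 : (Var[Xc p 0; PI μ]).toNNReal ≠ 0 := by
    rw [hv]
    have : 0 < p * (1 - p) := mul_pos hp0 (by linarith)
    simpa using this
  have h1 := tendstoInDistribution_inv_sqrt_mul_sum_sub (X := Xc p) (P := PI μ)
    (Y := id) (P' := gaussianReal 0 Var[Xc p 0; PI μ].toNNReal) HasLaw.id (Xc_memLp μ p 0)
    (Xc_indep μ p) (Xc_ident μ p)
  have h2 := ProbabilityMeasure.le_liminf_measure_open_of_tendsto h1.tendsto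
    (G := Metric.ball u θ) Metric.isOpen_ball
  have h3 : 0 < (gaussianReal 0 Var[Xc p 0; PI μ].toNNReal) (Metric.ball u θ) := by
    rw [pos_iff_ne_zero]
    intro h
    have := gaussianReal_absolutelyContinuous' 0 hv0 h
    exact (Metric.isOpen_ball.measure_pos volume (Metric.nonempty_ball.2 hθ)).ne' this
  have h4 : ((⟨(gaussianReal 0 Var[Xc p 0; PI μ].toNNReal).map id,
      Measure.isProbabilityMeasure_map h1.aemeasurable_limit⟩ : ProbabilityMeasure ℝ) : Measure ℝ)
      (Metric.ball u θ) = (gaussianReal 0 Var[Xc p 0; PI μ].toNNReal) (Metric.ball u θ) := by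
    change (gaussianReal 0 Var[Xc p 0; PI μ].toNNReal).map id (Metric.ball u θ) = _
    rw [Measure.map_id]
  replace h2 := h4.symm.le.trans h2
  obtain ⟨c, hc0, hc1⟩ := ENNReal.lt_iff_exists_nnreal_btwn.1 h3
  have hc0' : 0 < c := by exact_mod_cast hc0
  refine ⟨c, by exact_mod_cast hc0', ?_⟩
  have h5 := eventually_lt_of_lt_liminf (hc1.trans_le h2)
  filter_upwards [h5, eventually_gt_atTop 0] with s hs hs0
  have hs' : (0 : ℝ) < s := by exact_mod_cast hs0
  have hsq : 0 < √(s : ℝ) := Real.sqrt_pos.2 hs'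
  have h6 : (c : ENNReal) < (PI μ).map (fun x => (√(s : ℝ))⁻¹ *
      (∑ k ∈ Finset.range s, Xc p k x - s * ∫ x, Xc p 0 x ∂(PI μ))) (Metric.ball u θ) := hs
  rw [integral_Xc μ p hp 0] at h6
  have hm : Measurable (fun x : ℕ → Bool => (√(s : ℝ))⁻¹ *
      (∑ k ∈ Finset.range s, Xc p k x - s * 0)) := by
    have := measurable_Sn p s
    have h7 : (fun x : ℕ → Bool => (√(s : ℝ))⁻¹ * (∑ k ∈ Finset.range s, Xc p k x - s * 0)) =
        fun x => (√(s : ℝ))⁻¹ * (Sn p x s) := by
      funext x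
      rw [mul_zero, sub_zero]
      rfl
    rw [h7]
    exact this.const_mul _
  rw [Measure.map_apply hm Metric.isOpen_ball.measurableSet] at h6
  have h7 : (fun x : ℕ → Bool => (√(s : ℝ))⁻¹ * (∑ k ∈ Finset.range s, Xc p k x - s * 0)) ⁻¹'
      Metric.ball u θ ⊆ {x | |Sn p x s - u * √s| < θ * √s} := by
    intro x hx
    have hx' : |(√(s : ℝ))⁻¹ * (∑ k ∈ Finset.range s, Xc p k x - s * 0) - u| < θ := by
      simpa [Real.dist_eq] using hx
    change |Sn p x s - u * √s| < θ * √s
    have e : Sn p x s - u * √s = ((√(s : ℝ))⁻¹ * (∑ k ∈ Finset.range s, Xc p k x - s * 0) - u) *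
        √s := by
      have : Sn p x s = ∑ k ∈ Finset.range s, Xc p k x := rfl
      rw [this]
      field_simp
      ring
    rw [e, abs_mul, abs_of_pos hsq]
    exact mul_lt_mul_of_pos_right hx' hsq
  have h8 := h6.le.trans (measure_mono h7)
  rw [measureReal_def]
  exact (ENNReal.ofReal_le_iff_le_toReal (measure_ne_top _ _)).1 (by simpa using h8)

end Q68.RK
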