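import Mathlib
import Pool.Agent.Q68.RK.Est

/-! Random products of 2 and 3 almost surely sweep. -/

open MeasureTheory ProbabilityTheory Set Filter Topology

namespace Q68.RK

open Q47Khin

lemma Good_shf {p θ κ u : ℝ} {x : ℕ → Bool} {a b s : ℕ} :
    Good (Sn p (shf a x)) b s u θ κ ↔ Good (Sn p x) (a + b) s u θ κ := by
  unfold Good
  have h1 : ∀ c d, Sn p (shf a x) c - Sn p (shf a x) d = Sn p x (a + c) - Sn p x (a + d) := by
    intro c d
    rw [Sn_shf, Sn_shf]
    ring
  have h2 : a + (b + s) = a + b + s := by ring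
  have h3 : ∀ n, a + (b + n + 1) = a + b + n + 1 := fun n => by ring
  simp only [h1, h2, h3]

lemma Sn_congr {p : ℝ} {x y : ℕ → Bool} {n m : ℕ} (h : ∀ i ∈ Finset.range m, x i = y i)
    (hn : n ≤ m) : Sn p x n = Sn p y n := by
  unfold Sn
  apply Finset.sum_congr rfl
  intro i hi
  rw [Finset.mem_range] at hi
  rw [h i (Finset.mem_range.2 (by omega))]

lemma Good_congr {p θ κ u : ℝ} {x y : ℕ → Bool} {b s m : ℕ}
    (h : ∀ i ∈ Finset.range m, x i = y i) (hbs : b + s ≤ m) :
    Good (Sn p x) b s u θ κ → Good (Sn p y) b s u θ κ := by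
  unfold Good
  rintro ⟨h1, h2⟩
  rw [Sn_congr h hbs, Sn_congr (n := b) h (by omega)] at h1
  refine ⟨h1, ?_⟩
  have h3 : (Finset.range s).filter (fun n => κ * √s < |Sn p y (b + n + 1) - Sn p y b|) =
      (Finset.range s).filter (fun n => κ * √s < |Sn p x (b + n + 1) - Sn p x b|) := by
    apply Finset.filter_congr
    intro n hn
    rw [Finset.mem_range] at hn
    rw [Sn_congr (n := b + n + 1) h (by omega), Sn_congr (n := b) h (by omega)]
  rw [h3]
  exact h2

/-- runs of good blocks -/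
def Ev (p θ κ : ℝ) (u : ℕ → ℝ) (R s : ℕ) : Set (ℕ → Bool) :=
  {x | ∀ i < R, Good (Sn p x) (i * s) s (u i) θ κ}

lemma Ev_dep (p θ κ : ℝ) (u : ℕ → ℝ) (R s : ℕ) :
    DepOn (Finset.range (R * s)) (Ev p θ κ u R s) := by
  intro x y hxy hx i hi
  apply Good_congr hxy _ (hx i hi)
  have : (i + 1) * s ≤ R * s := Nat.mul_le_mul_right _ hi
  linarith

variable (μ : Measure Bool) [IsProbabilityMeasure μ]

lemma Ev_prob (p θ κ : ℝ) (u : ℕ → ℝ) (s : ℕ) {c : ℝ} (hc : 0 ≤ c)
    (h : ∀ i, c ≤ (PI μ).real {x | Good (Sn p x) 0 s (u i) θ κ}) (R : ℕ) :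
    c ^ R ≤ (PI μ).real (Ev p θ κ u R s) := by
  induction R with
  | zero =>
    have : Ev p θ κ u 0 s = Set.univ := by
      ext x
      simp [Ev]
    rw [this]
    simp
  | succ R ih =>
    have e : Ev p θ κ u (R + 1) s = Ev p θ κ u R s ∩
        shf (R * s) ⁻¹' {x | Good (Sn p x) 0 s (u R) θ κ} := by
      ext x
      constructor
      · intro hx
        refine ⟨fun i hi => hx i (by omega), ?_⟩
        have h1 := hx R (by omega)
        change Good (Sn p (shf (R * s) x)) 0 s (u R) θ κ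
        rw [Good_shf]
        exact h1
      · rintro ⟨h1, h2⟩ i hi
        rcases Nat.lt_succ_iff_lt_or_eq.1 hi with h3 | h3
        · exact h1 i h3
        · have h4 : Good (Sn p (shf (R * s) x)) 0 s (u R) θ κ := h2
          rw [Good_shf] at h4
          rw [h3]
          exact h4
    have hd : DepOn (Finset.range s) {x | Good (Sn p x) 0 s (u R) θ κ} := by
      intro x y hxy hx
      exact Good_congr hxy (by omega) hx
    rw [e, prob_inter μ (Ev_dep p θ κ u R s) hd, pow_succ]
    exact mul_le_mul ih (h R) hc measureReal_nonneg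

lemma good_prob (p : ℝ) (hp : p = μ.real {true}) (hp0 : 0 < p) (hp1 : p < 1) {θ : ℝ}
    (hθ : 0 < θ) : ∃ c > 0, ∃ κ > 0, ∀ᶠ s : ℕ in atTop, ∀ u : ℝ, (u = 0 ∨ u = 1) →
      c ≤ (PI μ).real {x | Good (Sn p x) 0 s u θ κ} := by
  obtain ⟨c0, hc0, h0⟩ := clt μ p hp hp0 hp1 0 hθ
  obtain ⟨c1, hc1, h1⟩ := clt μ p hp hp0 hp1 1 hθ
  set c := min c0 c1 with hc
  have hcpos : 0 < c := lt_min hc0 hc1
  set κ := √(8 / c) with hκ
  have hκ0 : 0 < κ := Real.sqrt_pos.2 (by positivity)
  have hκ2 : 4 / κ ^ 2 = c / 2 := by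
    rw [hκ, Real.sq_sqrt (by positivity)]
    field_simp
    norm_num
  refine ⟨c / 2, by positivity, κ, hκ0, ?_⟩
  filter_upwards [h0, h1, eventually_gt_atTop 0] with s hs0 hs1 hs u hu
  have h2 := markov μ p hp hp0.le hp1.le s hs hκ0
  rw [hκ2] at h2
  have h3 : c ≤ (PI μ).real {x | |Sn p x s - u * √s| < θ * √s} := by
    rcases hu with rfl | rfl
    · exact (min_le_left _ _).trans hs0
    · exact (min_le_right _ _).trans hs1
  have h4 : {x | |Sn p x s - u * √s| < θ * √s} ⊆ {x | Good (Sn p x) 0 s u θ κ} ∪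
      {x | ¬ 4 * ((Finset.range s).filter (fun n => κ * √s < |Sn p x (n + 1)|)).card ≤ s} := by
    intro x hx
    by_cases hx2 : 4 * ((Finset.range s).filter (fun n => κ * √s < |Sn p x (n + 1)|)).card ≤ s
    · left
      have hx1 : |Sn p x s - u * √s| < θ * √s := hx
      change Good (Sn p x) 0 s u θ κ
      unfold Good
      simp only [zero_add, Sn_zero, sub_zero]
      exact ⟨hx1, hx2⟩
    · right
      exact hx2
  have h5 := (measureReal_mono h4 (measure_ne_top (PI μ) _)).trans (measureReal_union_le _ _)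
  linarith

lemma Cs_pos (K : ℕ) : 0 < Cs K := by
  cases K with
  | zero => simp [Cs]
  | succ K => simp only [Cs]; omega

theorem ae_path (p : ℝ) (hp : p = μ.real {true}) (hp0 : 0 < p) (hp1 : p < 1) (K m : ℕ) :
    ∀ᵐ x ∂(PI μ), PathProp (Sn p x) (K + 1) m := by
  set C := Cs K with hC
  have hC0 : (0 : ℝ) < C := by exact_mod_cast Cs_pos K
  set θ : ℝ := 1 / (2 * C) with hθ
  have hθ0 : 0 < θ := by positivity
  obtain ⟨c, hc, κ, hκ, hev⟩ := good_prob μ p hp hp0 hp1 hθ0
  obtain ⟨s0, hs0⟩ := eventually_atTop.1 hev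
  obtain ⟨v, hv⟩ := exists_nat_gt (2 * (1 + κ))
  have hv0' : (0 : ℝ) < v := by linarith
  have hv0 : 0 < v := by exact_mod_cast hv0'
  obtain ⟨g, hg0, hg1, hg2, -⟩ := sched v hv0 K
  set R := C * v with hR
  let f : ℕ → ℕ := fun t => s0 + m + 8 * t + t ^ 2 + 1
  let τ : ℕ → ℕ := fun k => Nat.rec 0 (fun _ t => t + R * f t) k
  have hτ : ∀ k, τ (k + 1) = τ k + R * f (τ k) := fun k => rfl
  have hu : ∀ i, ((g (i + 1) : ℝ) - g i = 0 ∨ (g (i + 1) : ℝ) - g i = 1) := by
    intro i
    rcases hg1 i with h | h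
    · left; rw [h]; ring
    · right; rw [h]; push_cast; ring
  have key := ae_exists μ (τ := τ) (L := fun k => R * f (τ k))
    (E := fun k => Ev p θ κ (fun i => (g (i + 1) : ℝ) - g i) R (f (τ k))) (c := c ^ R)
    (by positivity) (fun k => Ev_dep _ _ _ _ _ _) (fun k => (hτ k).ge) (fun k => by
      apply Ev_prob μ p θ κ _ _ hc.le
      intro i
      exact hs0 _ (by simp only [f]; omega) _ (hu i))
  filter_upwards [key] with x hx
  obtain ⟨k, hk⟩ := hx
  set s := f (τ k) with hs
  have hsge : τ k ^ 2 ≤ s := by simp only [hs, f]; omega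
  refine path_of_good (g := g) (C := C) (v := v) (τ := τ k) (s := s) (θ := θ) (κ := κ)
    (by simp only [hs, f]; omega) hθ0.le (by simp only [hs, f]; omega)
    (by simp only [hs, f]; omega) ?_ ?_ hg0 hg2 ?_
  · refine (Sn_abs p hp0.le hp1.le x _).trans ?_
    apply Real.le_sqrt_of_sq_le
    exact_mod_cast hsge
  · have h1 : ((C * v : ℕ) : ℝ) * θ = v / 2 := by
      rw [hθ]
      push_cast
      field_simp
    rw [h1]
    linarith
  · intro i hi
    have h1 : Good (Sn p (shf (τ k) x)) (i * s) s ((g (i + 1) : ℝ) - g i) θ κ := hk i hi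
    rw [Good_shf] at h1
    exact h1

theorem ae_not (p : ℝ) (hp : p = μ.real {true}) (hp0 : 0 < p) (hp1 : p < 1) :
    ∀ᵐ x ∂(PI μ), ∀ q : ENNReal, ¬ IsLpKhintchin q (prodSeq fun n => letter (x n)) := by
  have h1 : ∀ᵐ x ∂(PI μ), ∀ m : ℕ, PathProp (Sn p x) (2 ^ (m + 9)) m := by
    rw [ae_all_iff]
    intro m
    have h2 := ae_path μ p hp hp0 hp1 (2 ^ (m + 9) - 1) m
    have h3 : 2 ^ (m + 9) - 1 + 1 = 2 ^ (m + 9) := Nat.sub_add_cancel Nat.one_le_two_pow
    rw [h3] at h2
    exact h2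
  filter_upwards [h1] with x hx q
  exact not_khintchin (fun m => sweep_of_path (hx m)) q

/-- Main theorem on an arbitrary probability space. -/
theorem main {Ω : Type*} [MeasurableSpace Ω] (P : Measure Ω) [IsProbabilityMeasure P] (p : ℝ)
    (hp0 : 0 < p) (hp1 : p < 1) (ω : ℕ → Ω → ℕ) (hm : ∀ n, Measurable (ω n))
    (hi : iIndepFun ω P) (h2 : ∀ n, P {z | ω n z = 2} = ENNReal.ofReal p)
    (h3 : ∀ n, P {z | ω n z = 3} = ENNReal.ofReal (1 - p)) :
    ∀ᵐ z ∂P, ∀ q : ENNReal, ¬ IsLpKhintchin q (prodSeq fun n => ω n z) := by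
  have hd : Measurable (fun n : ℕ => decide (n = 2)) := measurable_from_top
  let Y : ℕ → Ω → Bool := fun n z => decide (ω n z = 2)
  have hY : ∀ n, Measurable (Y n) := fun n => hd.comp (hm n)
  have hYi : iIndepFun Y P := hi.comp (fun _ n => decide (n = 2)) (fun _ => hd)
  have hYt : ∀ n, (P.map (Y n)) {true} = ENNReal.ofReal p := by
    intro n
    rw [Measure.map_apply (hY n) (measurableSet_singleton _), ← h2 n]
    congr 1
    ext z
    simp [Y]
  have : ∀ n, IsProbabilityMeasure (P.map (Y n)) := fun n =>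
    Measure.isProbabilityMeasure_map (hY n).aemeasurable
  have hYe : ∀ n, P.map (Y n) = P.map (Y 0) := by
    intro n
    apply Measure.ext_of_singleton
    intro b
    cases b with
    | true => rw [hYt, hYt]
    | false =>
      have hc : ({false} : Set Bool) = {true}ᶜ := by ext b; cases b <;> simp
      rw [hc, prob_compl_eq_one_sub (measurableSet_singleton _),
        prob_compl_eq_one_sub (measurableSet_singleton _), hYt, hYt]
  have hmap := hYi.map_fun_eq_infinitePi_map hY
  have hmap' : P.map (fun z n => Y n z) = PI (P.map (Y 0)) := by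
    rw [hmap]
    simp only [hYe]
  have hpt : p = (P.map (Y 0)).real {true} := by
    rw [measureReal_def, hYt, ENNReal.toReal_ofReal hp0.le]
  have h4 := ae_not (P.map (Y 0)) p hpt hp0 hp1
  rw [← hmap'] at h4
  have h5 := ae_of_ae_map (measurable_pi_lambda _ hY).aemeasurable h4
  have h6 : ∀ᵐ z ∂P, ∀ n, ω n z = 2 ∨ ω n z = 3 := by
    rw [ae_all_iff]
    intro n
    have hA : MeasurableSet {z | ω n z = 2} := hm n (measurableSet_singleton 2)
    have hB : MeasurableSet {z | ω n z = 3} := hm n (measurableSet_singleton 3)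
    have hdis : Disjoint {z | ω n z = 2} {z | ω n z = 3} := by
      rw [Set.disjoint_left]
      intro z h h'
      have e1 : ω n z = 2 := h
      have e2 : ω n z = 3 := h'
      omega
    have h7 : P ({z | ω n z = 2} ∪ {z | ω n z = 3}) = 1 := by
      rw [measure_union hdis hB, h2, h3, ← ENNReal.ofReal_add hp0.le (by linarith)]
      simp
    have h8 := (prob_compl_eq_zero_iff (hA.union hB)).2 h7
    rw [ae_iff]
    refine measure_mono_null ?_ h8
    intro z hz
    simpa using hz
  filter_upwards [h5, h6] with z hz hz2 q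
  have e : (fun n => ω n z) = fun n => letter (Y n z) := by
    funext n
    simp only [letter, Y]
    rcases hz2 n with h | h
    · simp [h]
    · simp [h]
  rw [e]
  exact hz q

end Q68.RK
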