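import Pool.Agent.Q110.RK.Stm

/-!
# Project RK: a symplectic spread
-/

set_option autoImplicit false

namespace Pool.Agent.Q68.RK

open Finset Module
open Pool.Agent.Q110.RK

theorem spread : S_spread := by
  intro m
  rcases Nat.eq_zero_or_pos m with hm | hm
  · subst hm
    refine ⟨fun _ => 0, fun v w _ => ?_⟩
    unfold om
    simp
  have : Fact (Nat.Prime 2) := ⟨Nat.prime_two⟩
  have hm0 : m ≠ 0 := hm.ne'
  obtain ⟨K, iF, iA, iFin, hfr⟩ : ∃ (K : Type) (_ : Field K) (_ : Algebra (ZMod 2) K)
      (_ : Finite K), finrank (ZMod 2) K = m :=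
    ⟨GaloisField 2 m, inferInstance, inferInstance, inferInstance, GaloisField.finrank 2 hm0⟩
  have hcard : Nat.card K = 2 ^ m := by
    have : Fintype K := Fintype.ofFinite K
    rw [Nat.card_eq_fintype_card, Module.card_eq_pow_finrank (K := ZMod 2) (V := K), ZMod.card, hfr]
  have : FiniteDimensional (ZMod 2) K := FiniteDimensional.of_finrank_pos (by rw [hfr]; exact hm)
  have : CharP K 2 := charP_of_injective_algebraMap (algebraMap (ZMod 2) K).injective 2
  let b : Basis (Fin m) (ZMod 2) K := finBasisOfFinrankEq (ZMod 2) K hfr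
  have hnd : (Algebra.traceForm (ZMod 2) K).Nondegenerate := traceForm_nondegenerate (ZMod 2) K
  let b' : Basis (Fin m) (ZMod 2) K := (Algebra.traceForm (ZMod 2) K).dualBasis hnd b
  obtain ⟨X, hX⟩ : ∃ X : Vec m → K, ∀ v, X v = ∑ i, (v i).1 • b i := ⟨_, fun v => rfl⟩
  obtain ⟨Y, hY⟩ : ∃ Y : Vec m → K, ∀ v, Y v = ∑ i, (v i).2 • b' i := ⟨_, fun v => rfl⟩
  have hT : ∀ v w : Vec m, Algebra.trace (ZMod 2) K (Y w * X v) = ∑ i, (v i).1 * (w i).2 := by
    intro v w
    rw [← Algebra.traceForm_apply, hX, hY]
    have hb : ∀ i j, Algebra.traceForm (ZMod 2) K (b' i) (b j) = if j = i then 1 else 0 := fun i j =>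
      LinearMap.BilinForm.apply_dualBasis_left hnd b i j
    rw [map_sum]
    refine Finset.sum_congr rfl fun i _ => ?_
    rw [map_sum, LinearMap.sum_apply, Finset.sum_eq_single i]
    · rw [map_smul, map_smul, LinearMap.smul_apply, hb, if_pos rfl]
      simp only [smul_eq_mul]
      ring
    · intro j _ hj
      rw [map_smul, map_smul, LinearMap.smul_apply, hb, if_neg (fun h => hj h.symm)]
      simp
    · intro h
      exact absurd (Finset.mem_univ _) h
  have hom : ∀ v w : Vec m, Algebra.trace (ZMod 2) K (Y w * X v + Y v * X w) = om v w := by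
    intro v w
    rw [map_add, hT, hT, ← Finset.sum_add_distrib]
    unfold om
    refine Finset.sum_congr rfl fun i _ => ?_
    ring
  have h2 : ∀ x : K, x + x = 0 := fun x => CharTwo.add_self_eq_zero x
  have : Fintype K := Fintype.ofFinite K
  have hc : Fintype.card (Option K) = 2 ^ m + 1 := by
    rw [Fintype.card_option, ← Nat.card_eq_fintype_card, hcard]
  let eq : Option K ≃ Fin (2 ^ m + 1) := Fintype.equivFinOfCardEq hc
  classical
  refine ⟨fun v => eq (if X v = 0 then none else some (Y v / X v)), fun v w h => ?_⟩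
  have h := eq.injective h
  rw [← hom]
  have hz : Y w * X v + Y v * X w = 0 := by
    by_cases hv : X v = 0
    · by_cases hw : X w = 0
      · rw [hv, hw]; ring
      · rw [if_pos hv, if_neg hw] at h
        exact absurd h (by simp)
    · by_cases hw : X w = 0
      · rw [if_neg hv, if_pos hw] at h
        exact absurd h (by simp)
      · rw [if_neg hv, if_neg hw, Option.some_inj, div_eq_div_iff hv hw] at h
        rw [h]
        exact h2 _
  rw [hz, map_zero]

end Pool.Agent.Q68.RK
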